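import Pool.Agent.H32.IntC

set_option autoImplicit false

open Pool.Agent.H32.Int in
theorem Pool.Agent.Results.MP_7321fb_lc.NotDecomp.result :
    ∃ A : Set ℕ, Introenumerable A ∧
      ¬ ∃ (n : ℕ) (B : Fin (n + 1) → Set ℕ), A = ⋃ i, B i ∧ ∀ i, UiE A (B i) := by
  obtain ⟨A, -, h1, -, h2⟩ := main
  exact ⟨A, h1, h2⟩
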